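import Pool.Agent.helper64.NQ.Spec

/-!
# Project nq (MP_baa4d7_al), row SUM
-/

set_option autoImplicit false

namespace Pool.Agent.NQ

open Pool.Agent.helper58.DC Pool.Agent.DI Pool.Agent.DR

open Classical in
theorem SUM_fs {β : Type} (S : Set β) [Fintype S] (Q : β → Prop) (R : Set β)
    (hR : ∀ x, x ∈ R ↔ x ∈ S ∧ Q x) (f : β → ℂ) :
    ∑ᶠ x ∈ R, f x = ∑ x : S, if Q x.1 then f x.1 else 0 := by
  have e : R = ((S.toFinset.filter Q : Finset β) : Set β) := by
    ext x
    rw [hR, Finset.coe_filter, Set.mem_setOf_eq, Set.mem_toFinset]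
  rw [e, finsum_mem_coe_finset, Finset.sum_filter]
  exact Finset.sum_subtype S.toFinset (fun x => Set.mem_toFinset) (fun x => if Q x then f x else 0)

theorem SUM (hRLU : RLU_stmt) (hGEN : GEN_stmt) (hIF : IF_stmt) : SUM_stmt := by
  classical
  intro G E A _ _ _ _ _ _ X p _ M hM hpM hop χ hχ hst hcomm hpA 𝒳 hCl hX T N hTN hinv D hD α hα
  have hfinP : {x : Finset (Subgroup G) × (G → ℂ) | IsPair p M χ x}.Finite := by
    have h1 : (⋃ C : Finset (Subgroup G), (fun ψ : G → ℂ => (C, ψ)) '' IrrOn (nrm C)).Finite :=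
      Set.finite_iUnion fun C => (hIF G (nrm C)).1.image _
    refine h1.subset ?_
    rintro ⟨C, ψ⟩ hx
    exact Set.mem_iUnion.2 ⟨C, ψ, hx.2.1, rfl⟩
  obtain ⟨S, hS⟩ : ∃ S : Set (Finset (Subgroup G) × (G → ℂ)),
      S = {x | IsPair p M χ x ∧ dfc p x = D ∧ T ≤ Vx X x} := ⟨_, rfl⟩
  have hSfin : S.Finite := by
    rw [hS]
    exact hfinP.subset fun x hx => hx.1
  letI : Fintype S := hSfin.fintype
  have key := hGEN A S (fun x => (wt x.1 : ℂ)) (fun x => Vx X x.1) (fun x => om (α x.1)) N (by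
    intro U hU
    have hcop : (Nat.card T).Coprime (Nat.card U) :=
      hTN.coprime_dvd_right (Subgroup.card_dvd_of_le hU)
    have h1 := hRLU G E A X p M hM hpM hop χ hχ hst hcomm hpA 𝒳 hCl hX T U hcop hinv D hD α hα
    rw [SUM_fs S (fun _ => True) _ (fun x => by rw [hS]; simp)] at h1
    simpa using h1)
  rw [SUM_fs S (fun x => N ≤ Vx X x) _ (fun x => by
    rw [hS]
    simp only [Set.mem_setOf_eq, sup_le_iff]
    tauto)]
  refine Eq.trans ?_ key
  refine Finset.sum_congr rfl fun x _ => ?_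
  by_cases h : N ≤ Vx X x.1
  · rw [if_pos h, if_pos h]
  · rw [if_neg h, if_neg h, mul_zero]

end Pool.Agent.NQ
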